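import Mathlib
import Pool.Agent.TH304.MI.Stm

/-!
# Project MI: BV compactness for sets (S_cpt), part 1: the dual translation estimate
-/

set_option autoImplicit false

open MeasureTheory Set Metric Filter Topology
open scoped ENNReal Real Convolution

noncomputable section

namespace Pool.Agent.TH452.MI

open Pool.Agent.TH304.MI

variable {n : ℕ}

/-- `A` has relative perimeter at most `C` in `Ω`. -/
def PB (Ω A : Set (EuclideanSpace ℝ (Fin n))) (C : ℝ) : Prop :=
  ∀ φ : EuclideanSpace ℝ (Fin n) → EuclideanSpace ℝ (Fin n), ContDiff ℝ 1 φ →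
    HasCompactSupport φ → tsupport φ ⊆ Ω → (∀ x, ‖φ x‖ ≤ 1) → ∫ x in A, dv φ x ≤ C

lemma PB_nonneg {Ω A : Set (EuclideanSpace ℝ (Fin n))} {C : ℝ} (h : PB Ω A C) : 0 ≤ C := by
  have := h (fun _ => 0) contDiff_const HasCompactSupport.zero (by simp [tsupport]) (by simp)
  have e : ∀ x : EuclideanSpace ℝ (Fin n),
      dv (fun _ : EuclideanSpace ℝ (Fin n) => (0 : EuclideanSpace ℝ (Fin n))) x = 0 := by
    intro x; simp [dv]
  simpa [e] using this

/-- divergence of `g • u` for a constant vector `u`. -/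
lemma dv_smul_const {g : EuclideanSpace ℝ (Fin n) → ℝ} {x : EuclideanSpace ℝ (Fin n)}
    (hg : DifferentiableAt ℝ g x) (u : EuclideanSpace ℝ (Fin n)) :
    dv (fun y => g y • u) x = fderiv ℝ g x u := by
  unfold dv
  have h1 : fderiv ℝ (fun y => g y • u) x = (fderiv ℝ g x).smulRight u := by
    exact (hg.hasFDerivAt.smul_const u).fderiv
  rw [h1]
  have h2 : ((fderiv ℝ g x).smulRight u).toLinearMap =
      LinearMap.smulRight (fderiv ℝ g x).toLinearMap u := by
    ext v; simp
  rw [h2]
  simp

/-- one-sided dual translation estimate -/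
lemma trans_one {Ω A : Set (EuclideanSpace ℝ (Fin n))} {C : ℝ} (hA : PB Ω A C)
    (hfin : volume A ≠ ⊤)
    {g : EuclideanSpace ℝ (Fin n) → ℝ} (hg : ContDiff ℝ 1 g) (hgs : HasCompactSupport g)
    (hg1 : ∀ x, |g x| ≤ 1) (h : EuclideanSpace ℝ (Fin n))
    (hΩ : ∀ t ∈ Icc (0:ℝ) 1, ∀ x ∈ tsupport g, x + t • h ∈ Ω) :
    (∫ x in A, (g x - g (x - h))) ≤ C * ‖h‖ := by
  have hC : 0 ≤ C := PB_nonneg hA
  have hfc := hg.continuous_fderiv (by simp)
  -- the estimate at fixed t
  have key : ∀ t ∈ Icc (0:ℝ) 1, ∫ x in A, fderiv ℝ g (x - t • h) h ≤ C * ‖h‖ := by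
    intro t ht
    by_cases h0 : h = 0
    · subst h0; simp
    have hn : 0 < ‖h‖ := norm_pos_iff.mpr h0
    set u : EuclideanSpace ℝ (Fin n) := ‖h‖⁻¹ • h with hu
    have hu1 : ‖u‖ = 1 := by
      rw [hu, norm_smul, norm_inv, norm_norm, inv_mul_cancel₀ hn.ne']
    set G : EuclideanSpace ℝ (Fin n) → ℝ := fun x => g (x - t • h) with hG
    have hGC : ContDiff ℝ 1 G := hg.comp (contDiff_id.sub contDiff_const)
    have hGs : HasCompactSupport G := by
      have := hgs.comp_homeomorph (Homeomorph.subRight (t • h))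
      exact this
    have hsup : tsupport G ⊆ Ω := by
      have e : tsupport G = (fun x => x - t • h) ⁻¹' tsupport g := by
        have := tsupport_comp_eq_preimage g (Homeomorph.subRight (t • h))
        exact this
      rw [e]
      intro x hx
      have := hΩ t ht _ hx
      simpa using this
    have hfd : ∀ x, fderiv ℝ G x = fderiv ℝ g (x - t • h) := by
      intro x
      exact fderiv_comp_sub (t • h)
    have h1 := hA (fun x => G x • u) (hGC.smul contDiff_const) (hGs.smul_right)
      ((tsupport_smul_subset_left G (fun _ => u)).trans hsup) (by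
        intro x
        rw [norm_smul, hu1, mul_one]
        exact hg1 _)
    have h2 : ∀ x, dv (fun x => G x • u) x = ‖h‖⁻¹ * fderiv ℝ g (x - t • h) h := by
      intro x
      rw [dv_smul_const (hGC.differentiable (by simp) x), hfd, hu, map_smul, smul_eq_mul]
    simp only [h2] at h1
    rw [integral_const_mul] at h1
    calc ∫ x in A, fderiv ℝ g (x - t • h) h = ‖h‖ * (‖h‖⁻¹ * ∫ x in A, fderiv ℝ g (x - t • h) h) := by
          field_simp
      _ ≤ ‖h‖ * C := by gcongr
      _ = C * ‖h‖ := mul_comm _ _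
  -- bound for the derivative
  obtain ⟨M, hM⟩ := (hgs.fderiv (𝕜 := ℝ)).exists_bound_of_continuous hfc
  have hcont : Continuous (fun p : EuclideanSpace ℝ (Fin n) × ℝ =>
      fderiv ℝ g (p.1 - p.2 • h) h) :=
    (hfc.comp (by fun_prop)).clm_apply continuous_const
  have h1 : ∀ x, g x - g (x - h) = ∫ t in Ioc (0:ℝ) 1, fderiv ℝ g (x - t • h) h := by
    intro x
    have hd : ∀ t : ℝ, HasDerivAt (fun t : ℝ => g (x - t • h)) (-(fderiv ℝ g (x - t • h) h)) t := by
      intro t
      have h2 : HasDerivAt (fun t : ℝ => x - t • h) (-((1:ℝ) • h)) t :=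
        ((hasDerivAt_id t).smul_const h).const_sub x
      rw [one_smul] at h2
      have := ((hg.differentiable (by simp) (x - t • h)).hasFDerivAt).comp_hasDerivAt t h2
      rw [map_neg] at this
      exact this
    have hc : Continuous (fun t : ℝ => -(fderiv ℝ g (x - t • h) h)) :=
      (hcont.comp (by fun_prop : Continuous fun t : ℝ => (x, t))).neg
    have h3 := intervalIntegral.integral_eq_sub_of_hasDerivAt (a := 0) (b := 1)
      (fun t _ => hd t) (hc.intervalIntegrable _ _)
    rw [one_smul, zero_smul, sub_zero, intervalIntegral.integral_of_le zero_le_one,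
      integral_neg] at h3
    linarith
  have : IsFiniteMeasure (volume.restrict A) :=
    ⟨by rw [Measure.restrict_apply_univ]; exact lt_top_iff_ne_top.mpr hfin⟩
  have hint : Integrable (Function.uncurry fun (x : EuclideanSpace ℝ (Fin n)) (t : ℝ) =>
      fderiv ℝ g (x - t • h) h) ((volume.restrict A).prod (volume.restrict (Ioc (0:ℝ) 1))) := by
    apply Integrable.of_bound (C := M * ‖h‖) hcont.aestronglyMeasurable
    apply ae_of_all
    intro p
    exact ((fderiv ℝ g (p.1 - p.2 • h)).le_opNorm h).trans (by gcongr; exact hM _)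
  calc (∫ x in A, (g x - g (x - h)))
      = ∫ x in A, ∫ t in Ioc (0:ℝ) 1, fderiv ℝ g (x - t • h) h :=
        integral_congr_ae (ae_of_all _ h1)
    _ = ∫ t in Ioc (0:ℝ) 1, ∫ x in A, fderiv ℝ g (x - t • h) h := integral_integral_swap hint
    _ ≤ ∫ t in Ioc (0:ℝ) 1, C * ‖h‖ := by
        apply setIntegral_mono_on hint.integral_prod_right
          (integrable_const _ : Integrable _ (volume.restrict (Ioc (0:ℝ) 1))) measurableSet_Ioc
        intro t ht
        exact key t ⟨ht.1.le, ht.2⟩
    _ = C * ‖h‖ := by simp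

end Pool.Agent.TH452.MI
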