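import Mathlib
import Pool.Agent.TH452.MI.Cpt1

/-!
# Project MI: BV compactness for sets (S_cpt), part 2: translation estimate for bounded
measurable functions and comparison with averages
-/

set_option autoImplicit false

open MeasureTheory Set Metric Filter Topology
open scoped ENNReal Real Convolution

noncomputable section

namespace Pool.Agent.TH452.MI

open Pool.Agent.TH304.MI

variable {n : ℕ}

lemma trans_two {Ω A : Set (EuclideanSpace ℝ (Fin n))} {C : ℝ} (hA : PB Ω A C)
    (hfin : volume A ≠ ⊤)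
    {g : EuclideanSpace ℝ (Fin n) → ℝ} (hg : ContDiff ℝ 1 g) (hgs : HasCompactSupport g)
    (hg1 : ∀ x, |g x| ≤ 1) (h : EuclideanSpace ℝ (Fin n))
    (hΩ : ∀ t ∈ Icc (0:ℝ) 1, ∀ x ∈ tsupport g, x + t • h ∈ Ω) :
    |(∫ x in A, g x) - ∫ x in A, g (x - h)| ≤ C * ‖h‖ := by
  have i1 : Integrable g := hg.continuous.integrable_of_hasCompactSupport hgs
  have i2 : Integrable (fun x => g (x - h)) := i1.comp_sub_right h
  rw [← integral_sub i1.integrableOn i2.integrableOn]
  have h1 := trans_one hA hfin hg hgs hg1 h hΩ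
  have h2 := trans_one hA hfin (g := fun x => - g x) hg.neg hgs.neg
    (fun x => by rw [abs_neg]; exact hg1 x) h (by
      have : tsupport (fun x => - g x) = tsupport g := by
        unfold tsupport
        congr 1
        ext x; simp
      rw [this]; exact hΩ)
  have h3 : (∫ x in A, (-g x - -g (x - h))) = -∫ x in A, (g x - g (x - h)) := by
    rw [← integral_neg]
    congr 1
    ext x; ring
  rw [h3] at h2
  rw [abs_le]
  constructor <;> linarith

/-- the mollification of `s` -/
def mo (φ : ContDiffBump (0 : EuclideanSpace ℝ (Fin n))) (s : EuclideanSpace ℝ (Fin n) → ℝ) :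
    EuclideanSpace ℝ (Fin n) → ℝ :=
  (φ.normed volume ⋆[ContinuousLinearMap.lsmul ℝ ℝ, volume] s)

lemma mo_apply (φ : ContDiffBump (0 : EuclideanSpace ℝ (Fin n)))
    (s : EuclideanSpace ℝ (Fin n) → ℝ) (x : EuclideanSpace ℝ (Fin n)) :
    mo φ s x = ∫ t, φ.normed volume t * s (x - t) := by
  unfold mo
  rw [convolution_def]
  rfl

lemma mo_bd (φ : ContDiffBump (0 : EuclideanSpace ℝ (Fin n)))
    {s : EuclideanSpace ℝ (Fin n) → ℝ} (hs1 : ∀ x, |s x| ≤ 1) (x : EuclideanSpace ℝ (Fin n)) :
    |mo φ s x| ≤ 1 := by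
  rw [mo_apply, ← Real.norm_eq_abs, ← φ.integral_normed (μ := volume)]
  apply norm_integral_le_of_norm_le φ.integrable_normed
  apply ae_of_all
  intro t
  rw [Real.norm_eq_abs, abs_mul, abs_of_nonneg (φ.nonneg_normed t)]
  exact mul_le_of_le_one_right (φ.nonneg_normed t) (hs1 _)

lemma s_int {s : EuclideanSpace ℝ (Fin n) → ℝ} (hsm : Measurable s) (hs1 : ∀ x, |s x| ≤ 1)
    {K : Set (EuclideanSpace ℝ (Fin n))} (hK : IsCompact K) (hsK : ∀ x, x ∉ K → s x = 0) :
    Integrable s := by
  have h1 : IntegrableOn s K := by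
    apply Measure.integrableOn_of_bounded (M := 1) hK.measure_lt_top.ne hsm.aestronglyMeasurable
    exact ae_of_all _ hs1
  rw [← integrableOn_univ]
  apply h1.of_forall_sdiff_eq_zero MeasurableSet.univ
  intro x hx
  exact hsK x hx.2

lemma mo_C1 (φ : ContDiffBump (0 : EuclideanSpace ℝ (Fin n)))
    {s : EuclideanSpace ℝ (Fin n) → ℝ} (hs : Integrable s) : ContDiff ℝ 1 (mo φ s) :=
  φ.hasCompactSupport_normed.contDiff_convolution_left _ φ.contDiff_normed hs.locallyIntegrable

lemma mo_supp (φ : ContDiffBump (0 : EuclideanSpace ℝ (Fin n)))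
    {s : EuclideanSpace ℝ (Fin n) → ℝ} {K : Set (EuclideanSpace ℝ (Fin n))}
    (hsK : ∀ x, x ∉ K → s x = 0) : tsupport (mo φ s) ⊆ cthickening φ.rOut K := by
  apply closure_minimal _ isClosed_cthickening
  intro x hx
  by_contra hxK
  apply hx
  rw [mo_apply]
  apply integral_eq_zero_of_ae
  apply ae_of_all
  intro t
  by_cases ht : t ∈ ball (0 : EuclideanSpace ℝ (Fin n)) φ.rOut
  · have : x - t ∉ K := by
      intro hm
      apply hxK
      apply mem_cthickening_of_dist_le x (x - t) _ _ hm
      rw [mem_ball_zero_iff] at ht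
      rw [dist_eq_norm, sub_sub_cancel]
      exact ht.le
    simp [hsK _ this]
  · have : φ.normed volume t = 0 := by
      rw [← φ.support_normed_eq (μ := volume)] at ht
      simpa using ht
    simp [this]

/-- translation estimate for bounded measurable functions supported in `K` -/
lemma trans_meas {Ω A : Set (EuclideanSpace ℝ (Fin n))} {C : ℝ} (hA : PB Ω A C)
    (hfin : volume A ≠ ⊤) {s : EuclideanSpace ℝ (Fin n) → ℝ} (hsm : Measurable s)
    (hs1 : ∀ x, |s x| ≤ 1) {K : Set (EuclideanSpace ℝ (Fin n))} (hK : IsCompact K)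
    (hsK : ∀ x, x ∉ K → s x = 0) {r : ℝ} (hr : cthickening r K ⊆ Ω)
    (h : EuclideanSpace ℝ (Fin n)) (hh : ‖h‖ < r) :
    |(∫ x in A, s x) - ∫ x in A, s (x - h)| ≤ C * ‖h‖ := by
  have hsi := s_int hsm hs1 hK hsK
  set η : ℕ → ℝ := fun j => (r - ‖h‖) / (j + 1) with hη
  have hη0 : ∀ j, 0 < η j := fun j => div_pos (by linarith) (by positivity)
  have hηr : ∀ j, η j ≤ r - ‖h‖ := by
    intro j
    apply div_le_self (by linarith)
    have : (0:ℝ) ≤ j := Nat.cast_nonneg j
    linarith
  set φ : ℕ → ContDiffBump (0 : EuclideanSpace ℝ (Fin n)) := fun j =>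
    ⟨η j / 2, η j, half_pos (hη0 j), half_lt_self (hη0 j)⟩ with hφ
  have hφr : ∀ j, (φ j).rOut = η j := fun j => rfl
  have hlim0 : Tendsto η atTop (𝓝 0) := by
    have := tendsto_one_div_add_atTop_nhds_zero_nat (𝕜 := ℝ)
    have h2 := this.const_mul (r - ‖h‖)
    rw [mul_zero] at h2
    apply h2.congr
    intro j
    simp only [hη]
    ring
  have hae : ∀ᵐ x, Tendsto (fun j => mo (φ j) s x) atTop (𝓝 (s x)) := by
    have := ContDiffBump.ae_convolution_tendsto_right_of_locallyIntegrable (φ := φ) (l := atTop)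
      (K := 2) (μ := (volume : Measure (EuclideanSpace ℝ (Fin n)))) (g := s) hlim0
      (Eventually.of_forall fun j => by
        change η j ≤ 2 * (η j / 2)
        linarith) hsi.locallyIntegrable
    exact this
  have hae2 : ∀ᵐ x, Tendsto (fun j => mo (φ j) s (x - h)) atTop (𝓝 (s (x - h))) :=
    (measurePreserving_sub_right volume h).quasiMeasurePreserving.ae hae
  have hKη : ∀ j, tsupport (mo (φ j) s) ⊆ cthickening (η j) K := fun j => mo_supp (φ j) hsK
  have hest : ∀ j, |(∫ x in A, mo (φ j) s x) - ∫ x in A, mo (φ j) s (x - h)| ≤ C * ‖h‖ := by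
    intro j
    have hcs : HasCompactSupport (mo (φ j) s) :=
      (hK.cthickening (r := η j)).of_isClosed_subset (isClosed_tsupport _) (hKη j)
    apply trans_two hA hfin (mo_C1 _ hsi) hcs (mo_bd _ hs1) h
    intro t ht x hx
    apply hr
    have h1 := hKη j hx
    have h2 : x + t • h ∈ cthickening ‖h‖ (cthickening (η j) K) := by
      apply mem_cthickening_of_dist_le _ x _ _ h1
      rw [dist_eq_norm, add_sub_cancel_left, norm_smul, Real.norm_eq_abs, abs_of_nonneg ht.1]
      exact mul_le_of_le_one_left (norm_nonneg _) ht.2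
    exact cthickening_mono (by linarith [hηr j]) K
      (cthickening_cthickening_subset (norm_nonneg h) (hη0 j).le K h2)
  have hfinm : IsFiniteMeasure (volume.restrict A) :=
    ⟨by rw [Measure.restrict_apply_univ]; exact lt_top_iff_ne_top.mpr hfin⟩
  have l1 : Tendsto (fun j => ∫ x in A, mo (φ j) s x) atTop (𝓝 (∫ x in A, s x)) := by
    apply tendsto_integral_of_dominated_convergence (fun _ => (1:ℝ))
    · intro j; exact (mo_C1 (φ j) hsi).continuous.aestronglyMeasurable
    · exact integrable_const _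
    · intro j; exact ae_of_all _ (mo_bd _ hs1)
    · exact ae_restrict_of_ae hae
  have l2 : Tendsto (fun j => ∫ x in A, mo (φ j) s (x - h)) atTop
      (𝓝 (∫ x in A, s (x - h))) := by
    apply tendsto_integral_of_dominated_convergence (fun _ => (1:ℝ))
    · intro j
      exact ((mo_C1 (φ j) hsi).continuous.comp (by fun_prop)).aestronglyMeasurable
    · exact integrable_const _
    · intro j; exact ae_of_all _ (fun x => mo_bd _ hs1 _)
    · exact ae_restrict_of_ae hae2
  exact le_of_tendsto (l1.sub l2).abs (Eventually.of_forall hest)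

/-- The average of the indicator of `A` with kernel `ρ`. -/
def WW (ρ : EuclideanSpace ℝ (Fin n) → ℝ) (A : Set (EuclideanSpace ℝ (Fin n)))
    (y : EuclideanSpace ℝ (Fin n)) : ℝ := ∫ x in A, ρ (x - y)

/-- comparison of `∫_A s` with the average -/
lemma avg_meas {Ω A : Set (EuclideanSpace ℝ (Fin n))} {C : ℝ} (hA : PB Ω A C)
    (hfin : volume A ≠ ⊤) {s : EuclideanSpace ℝ (Fin n) → ℝ} (hsm : Measurable s)
    (hs1 : ∀ x, |s x| ≤ 1) {K : Set (EuclideanSpace ℝ (Fin n))} (hK : IsCompact K)
    (hsK : ∀ x, x ∉ K → s x = 0) {r δ : ℝ} (hr : cthickening r K ⊆ Ω) (hδ : δ ≤ r)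
    {ρ : EuclideanSpace ℝ (Fin n) → ℝ} (hρc : Continuous ρ) (hρs : HasCompactSupport ρ)
    (hρ0 : ∀ x, 0 ≤ ρ x) (hρ1 : ∫ x, ρ x = 1) (hρd : ∀ x, δ ≤ ‖x‖ → ρ x = 0) :
    |(∫ x in A, s x) - ∫ y, s y * WW ρ A y| ≤ C * δ := by
  have hC : 0 ≤ C := PB_nonneg hA
  have hsi := s_int hsm hs1 hK hsK
  have hρi : Integrable ρ := hρc.integrable_of_hasCompactSupport hρs
  have hfinm : IsFiniteMeasure (volume.restrict A) :=
    ⟨by rw [Measure.restrict_apply_univ]; exact lt_top_iff_ne_top.mpr hfin⟩
  obtain ⟨M, hM⟩ := hρs.exists_bound_of_continuous hρc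
  -- integrability on the product
  have hI1 : Integrable (Function.uncurry fun (x y : EuclideanSpace ℝ (Fin n)) =>
      ρ (x - y) * s y) ((volume.restrict A).prod volume) := by
    have hmeas : AEStronglyMeasurable (Function.uncurry fun (x y : EuclideanSpace ℝ (Fin n)) =>
      ρ (x - y) * s y) ((volume.restrict A).prod volume) := by
      apply Measurable.aestronglyMeasurable
      have h1 : Measurable (fun p : EuclideanSpace ℝ (Fin n) × EuclideanSpace ℝ (Fin n) =>
        ρ (p.1 - p.2)) := (hρc.comp (by fun_prop)).measurable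
      exact h1.mul (hsm.comp measurable_snd)
    have h2 : Integrable (fun p : EuclideanSpace ℝ (Fin n) × EuclideanSpace ℝ (Fin n) =>
        M * |s p.2|) ((volume.restrict A).prod volume) := by
      have := (integrable_const (μ := volume.restrict A) (M : ℝ)).mul_prod hsi.abs
      exact this
    apply h2.mono hmeas
    apply ae_of_all
    intro p
    change ‖ρ (p.1 - p.2) * s p.2‖ ≤ ‖M * |s p.2|‖
    rw [norm_mul, norm_mul, Real.norm_eq_abs (|s p.2|), abs_abs, Real.norm_eq_abs (s p.2)]
    gcongr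
    exact (hM _).trans (le_abs_self M)
  -- the two expressions of the average
  have e1 : (∫ y, s y * WW ρ A y) = ∫ x in A, ∫ y, ρ (x - y) * s y := by
    rw [integral_integral_swap hI1]
    congr 1
    ext y
    unfold WW
    rw [mul_comm, ← integral_mul_const]
  have hI2 : Integrable (Function.uncurry fun (x h : EuclideanSpace ℝ (Fin n)) =>
      ρ h * s (x - h)) ((volume.restrict A).prod volume) := by
    have hmeas : AEStronglyMeasurable (Function.uncurry fun (x h : EuclideanSpace ℝ (Fin n)) =>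
      ρ h * s (x - h)) ((volume.restrict A).prod volume) := by
      apply Measurable.aestronglyMeasurable
      have h1 : Measurable (fun p : EuclideanSpace ℝ (Fin n) × EuclideanSpace ℝ (Fin n) =>
        s (p.1 - p.2)) := hsm.comp (measurable_fst.sub measurable_snd)
      exact (hρc.measurable.comp measurable_snd).mul h1
    have h2 : Integrable (fun p : EuclideanSpace ℝ (Fin n) × EuclideanSpace ℝ (Fin n) =>
        1 * |ρ p.2|) ((volume.restrict A).prod volume) := by
      have := (integrable_const (μ := volume.restrict A) (1 : ℝ)).mul_prod hρi.abs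
      exact this
    apply h2.mono hmeas
    apply ae_of_all
    intro p
    change ‖ρ p.2 * s (p.1 - p.2)‖ ≤ ‖1 * |ρ p.2|‖
    rw [norm_mul, one_mul, Real.norm_eq_abs (|ρ p.2|), abs_abs, Real.norm_eq_abs (ρ p.2)]
    exact mul_le_of_le_one_right (abs_nonneg _) (hs1 _)
  have e2 : (∫ x in A, ∫ y, ρ (x - y) * s y) = ∫ h, ρ h * ∫ x in A, s (x - h) := by
    have : (∫ h, ρ h * ∫ x in A, s (x - h)) = ∫ h, ∫ x in A, ρ h * s (x - h) := by
      congr 1
      ext h
      rw [integral_const_mul]
    rw [this, ← integral_integral_swap hI2]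
    congr 1
    ext x
    have h3 := integral_sub_left_eq_self (fun y => ρ (x - y) * s y) volume x
    rw [← h3]
    congr 1
    ext h
    rw [sub_sub_cancel]
  have e3 : (∫ x in A, s x) = ∫ h, ρ h * ∫ x in A, s x := by
    rw [integral_mul_const, hρ1, one_mul]
  rw [e1, e2, e3]
  have hJ : Integrable (fun h => ρ h * ∫ x in A, s (x - h)) := by
    have := hI2.integral_prod_right
    apply this.congr
    apply ae_of_all
    intro h
    change (∫ x in A, ρ h * s (x - h)) = _
    rw [integral_const_mul]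
  rw [← integral_sub (hρi.mul_const _) hJ, ← Real.norm_eq_abs]
  have hb : C * δ = ∫ h, ρ h * (C * δ) := by rw [integral_mul_const, hρ1, one_mul]
  rw [hb]
  apply norm_integral_le_of_norm_le (hρi.mul_const _)
  apply ae_of_all
  intro h
  rw [← mul_sub, norm_mul, Real.norm_eq_abs, abs_of_nonneg (hρ0 h), Real.norm_eq_abs]
  by_cases hh : ‖h‖ < δ
  · apply mul_le_mul_of_nonneg_left _ (hρ0 h)
    refine (trans_meas hA hfin hsm hs1 hK hsK hr h (by linarith)).trans ?_
    gcongr
  · rw [hρd h (not_lt.mp hh)]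
    simp

end Pool.Agent.TH452.MI
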