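import Mathlib
import Pool.Agent.TH452.MI.Cpt2

/-!
# Project MI: BV compactness for sets (S_cpt), part 3: total boundedness and conclusion
-/

set_option autoImplicit false

open MeasureTheory Set Metric Filter Topology
open scoped ENNReal Real Convolution

noncomputable section

namespace Pool.Agent.TH452.MI

open Pool.Agent.TH304.MI

variable {n : ℕ}

/-- the comparison of two sets on `K` -/
lemma two_sets {Ω A B : Set (EuclideanSpace ℝ (Fin n))} {C : ℝ} (hA : PB Ω A C) (hB : PB Ω B C)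
    (hAm : MeasurableSet A) (hBm : MeasurableSet B)
    (hAf : volume A ≠ ⊤) (hBf : volume B ≠ ⊤)
    {K : Set (EuclideanSpace ℝ (Fin n))} (hK : IsCompact K)
    {r δ : ℝ} (hr : cthickening r K ⊆ Ω) (hδ : δ ≤ r)
    {ρ : EuclideanSpace ℝ (Fin n) → ℝ} (hρc : Continuous ρ) (hρs : HasCompactSupport ρ)
    (hρ0 : ∀ x, 0 ≤ ρ x) (hρ1 : ∫ x, ρ x = 1) (hρd : ∀ x, δ ≤ ‖x‖ → ρ x = 0)
    {τ : ℝ} (hτ : ∀ y ∈ K, |WW ρ A y - WW ρ B y| ≤ τ) (_hτ0 : 0 ≤ τ) :
    volume.real (K ∩ symmDiff A B) ≤ 2 * (C * δ) + τ * volume.real K := by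
  classical
  set s : EuclideanSpace ℝ (Fin n) → ℝ := K.indicator fun x =>
    A.indicator (fun _ => (1:ℝ)) x - B.indicator (fun _ => (1:ℝ)) x with hs
  have hKm : MeasurableSet K := hK.measurableSet
  have hsm : Measurable s :=
    ((measurable_const.indicator hAm).sub (measurable_const.indicator hBm)).indicator hKm
  have hs1 : ∀ x, |s x| ≤ 1 := by
    intro x
    simp only [hs, indicator_apply]
    split_ifs <;> norm_num
  have hsK : ∀ x, x ∉ K → s x = 0 := by
    intro x hx
    simp only [hs, indicator_apply, if_neg hx]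
  have hsi := s_int hsm hs1 hK hsK
  have e1 := avg_meas hA hAf hsm hs1 hK hsK hr hδ hρc hρs hρ0 hρ1 hρd
  have e2 := avg_meas hB hBf hsm hs1 hK hsK hr hδ hρc hρs hρ0 hρ1 hρd
  have e3 : (∫ x in A, s x) - ∫ x in B, s x = volume.real (K ∩ symmDiff A B) := by
    rw [← integral_indicator hAm, ← integral_indicator hBm,
      ← integral_sub (hsi.indicator hAm) (hsi.indicator hBm)]
    have : volume.real (K ∩ symmDiff A B) =
        ∫ x, (K ∩ symmDiff A B).indicator (fun _ => (1:ℝ)) x := by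
      rw [integral_indicator (hKm.inter (hAm.symmDiff hBm))]
      simp
    rw [this]
    congr 1
    ext x
    simp only [hs, indicator_apply, mem_inter_iff, mem_symmDiff]
    by_cases h1 : x ∈ K <;> by_cases h2 : x ∈ A <;> by_cases h3 : x ∈ B <;> simp [h1, h2, h3]
  have hWc : ∀ D : Set (EuclideanSpace ℝ (Fin n)), volume D ≠ ⊤ → Continuous (WW ρ D) := by
    intro D hD
    have hfinm : IsFiniteMeasure (volume.restrict D) :=
      ⟨by rw [Measure.restrict_apply_univ]; exact lt_top_iff_ne_top.mpr hD⟩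
    obtain ⟨M, hM⟩ := hρs.exists_bound_of_continuous hρc
    unfold WW
    apply continuous_of_dominated (bound := fun _ => M)
    · intro y
      exact (hρc.comp (by fun_prop)).aestronglyMeasurable
    · intro y
      exact ae_of_all _ fun x => hM _
    · exact integrable_const _
    · apply ae_of_all
      intro x
      exact hρc.comp (by fun_prop)
  have hWi : ∀ D : Set (EuclideanSpace ℝ (Fin n)), volume D ≠ ⊤ →
      Integrable (fun y => s y * WW ρ D y) := by
    intro D hD
    have hfinm : IsFiniteMeasure (volume.restrict D) :=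
      ⟨by rw [Measure.restrict_apply_univ]; exact lt_top_iff_ne_top.mpr hD⟩
    have hρi : Integrable ρ := hρc.integrable_of_hasCompactSupport hρs
    have hb : ∀ y, |WW ρ D y| ≤ 1 := by
      intro y
      unfold WW
      rw [abs_of_nonneg (integral_nonneg fun x => hρ0 _), ← hρ1,
        ← integral_sub_right_eq_self (fun x => ρ x) y]
      exact setIntegral_le_integral (hρi.comp_sub_right y) (ae_of_all _ fun x => hρ0 _)
    apply hsi.mono ((hsm.mul (hWc D hD).measurable).aestronglyMeasurable)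
    apply ae_of_all
    intro y
    change ‖s y * WW ρ D y‖ ≤ ‖s y‖
    rw [norm_mul]
    exact mul_le_of_le_one_right (norm_nonneg _) (hb y)
  have e4 : |(∫ y, s y * WW ρ A y) - ∫ y, s y * WW ρ B y| ≤ τ * volume.real K := by
    rw [← integral_sub (hWi A hAf) (hWi B hBf), ← Real.norm_eq_abs]
    have hb : τ * volume.real K = ∫ y, K.indicator (fun _ => τ) y := by
      rw [integral_indicator hKm]
      simp [mul_comm]
    rw [hb]
    apply norm_integral_le_of_norm_le
    · apply (integrable_indicator_iff hKm).mpr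
      exact integrableOn_const hK.measure_lt_top.ne
    · apply ae_of_all
      intro y
      rw [← mul_sub, norm_mul]
      by_cases hy : y ∈ K
      · rw [indicator_of_mem hy, Real.norm_eq_abs, Real.norm_eq_abs]
        calc |s y| * |WW ρ A y - WW ρ B y| ≤ 1 * τ :=
              mul_le_mul (hs1 y) (hτ y hy) (abs_nonneg _) zero_le_one
          _ = τ := one_mul _
      · rw [indicator_of_notMem hy, hsK y hy]
        simp
  rw [← e3]
  rw [abs_le] at e1 e2 e4
  linarith [e1.1, e1.2, e2.1, e2.2, e4.1, e4.2]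

lemma WW_equi {A : Set (EuclideanSpace ℝ (Fin n))} (hAf : volume A ≠ ⊤)
    {ρ : EuclideanSpace ℝ (Fin n) → ℝ} (hρc : Continuous ρ) (hρs : HasCompactSupport ρ)
    {η κ : ℝ} (hη : ∀ x y, dist x y < η → dist (ρ x) (ρ y) < κ)
    {y z : EuclideanSpace ℝ (Fin n)} (hyz : dist y z < η) :
    |WW ρ A y - WW ρ A z| ≤ κ * volume.real A := by
  have hρi : Integrable ρ := hρc.integrable_of_hasCompactSupport hρs
  unfold WW
  rw [← integral_sub (hρi.comp_sub_right y).integrableOn (hρi.comp_sub_right z).integrableOn,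
    ← Real.norm_eq_abs]
  apply norm_setIntegral_le_of_norm_le_const (lt_top_iff_ne_top.mpr hAf)
  intro x _
  have : dist (x - y) (x - z) < η := by
    rw [dist_sub_left]; exact hyz
  exact (hη _ _ this).le

lemma WW_range {A : Set (EuclideanSpace ℝ (Fin n))}
    {ρ : EuclideanSpace ℝ (Fin n) → ℝ} (hρc : Continuous ρ) (hρs : HasCompactSupport ρ)
    (hρ0 : ∀ x, 0 ≤ ρ x) (hρ1 : ∫ x, ρ x = 1) (y : EuclideanSpace ℝ (Fin n)) :
    0 ≤ WW ρ A y ∧ WW ρ A y ≤ 1 := by
  have hρi : Integrable ρ := hρc.integrable_of_hasCompactSupport hρs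
  unfold WW
  refine ⟨integral_nonneg fun x => hρ0 _, ?_⟩
  rw [← hρ1, ← integral_sub_right_eq_self (fun x => ρ x) y]
  exact setIntegral_le_integral (hρi.comp_sub_right y) (ae_of_all _ fun x => hρ0 _)

/-- finite discretization -/
lemma discr {Ω : Set (EuclideanSpace ℝ (Fin n))} (hΩ : IsOpen Ω) (hΩf : volume Ω ≠ ⊤)
    {E : ℕ → Set (EuclideanSpace ℝ (Fin n))} {C : ℝ} (hE : ∀ k, MeasurableSet (E k))
    (hEΩ : ∀ k, E k ⊆ Ω) (hP : ∀ k, PB Ω (E k) C) {ε : ℝ} (hε : 0 < ε) :
    ∃ (β : Type) (_ : Fintype β) (F : ℕ → β), ∀ k l, F k = F l →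
      volume.real (symmDiff (E k) (E l)) < ε := by
  classical
  have hC : 0 ≤ C := PB_nonneg (hP 0)
  have hEf : ∀ k, volume (E k) ≠ ⊤ := fun k => measure_ne_top_of_subset (hEΩ k) hΩf
  set V : ℝ := volume.real Ω with hV
  have hV0 : 0 ≤ V := measureReal_nonneg
  obtain ⟨K, hKΩ, hK, hKv⟩ := hΩ.measurableSet.exists_isCompact_sdiff_lt hΩf
    (ε := ENNReal.ofReal (ε / 4)) (by
      rw [ne_eq, ENNReal.ofReal_eq_zero, not_le]; positivity)
  obtain ⟨r, hr0, hr⟩ := hK.exists_cthickening_subset_open hΩ hKΩ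
  set δ : ℝ := min r (ε / (8 * (C + 1))) with hδ
  have hδ0 : 0 < δ := lt_min hr0 (by positivity)
  have hCδ : C * δ ≤ ε / 8 := by
    calc C * δ ≤ (C + 1) * (ε / (8 * (C + 1))) := by
          apply mul_le_mul (by linarith) (min_le_right _ _) hδ0.le (by linarith)
      _ = ε / 8 := by field_simp
  set φ : ContDiffBump (0 : EuclideanSpace ℝ (Fin n)) :=
    ⟨δ / 2, δ, half_pos hδ0, half_lt_self hδ0⟩ with hφ
  set ρ : EuclideanSpace ℝ (Fin n) → ℝ := φ.normed volume with hρ
  have hρc : Continuous ρ := φ.continuous_normed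
  have hρs : HasCompactSupport ρ := φ.hasCompactSupport_normed
  have hρ0 : ∀ x, 0 ≤ ρ x := φ.nonneg_normed
  have hρ1 : ∫ x, ρ x = 1 := φ.integral_normed
  have hρd : ∀ x, δ ≤ ‖x‖ → ρ x = 0 := by
    intro x hx
    have h1 : x ∉ ball (0 : EuclideanSpace ℝ (Fin n)) φ.rOut := by
      rw [mem_ball_zero_iff, not_lt]; exact hx
    rw [← φ.support_normed_eq (μ := volume)] at h1
    simpa using h1
  set κ : ℝ := ε / (16 * (V + 1) ^ 2) with hκ
  have hκ0 : 0 < κ := by positivity
  obtain ⟨η, hη0, hη⟩ := Metric.uniformContinuous_iff.mp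
    (hρs.uniformContinuous_of_continuous hρc) κ hκ0
  obtain ⟨t, _, htf, htc⟩ := hK.finite_cover_balls hη0
  set ν : ℝ := ε / (8 * (V + 1)) with hν
  have hν0 : 0 < ν := by positivity
  have hfl : ∀ k y, ⌊WW ρ (E k) y / ν⌋₊ < ⌊1 / ν⌋₊ + 1 := by
    intro k y
    have := (WW_range (A := E k) hρc hρs hρ0 hρ1 y).2
    have h2 : ⌊WW ρ (E k) y / ν⌋₊ ≤ ⌊1 / ν⌋₊ := Nat.floor_le_floor (by gcongr)
    omega
  have : Fintype t := htf.fintype
  refine ⟨t → Fin (⌊1 / ν⌋₊ + 1), inferInstance,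
    fun k y => ⟨⌊WW ρ (E k) y / ν⌋₊, hfl k y⟩, ?_⟩
  intro k l hkl
  have hcol : ∀ y ∈ t, |WW ρ (E k) y - WW ρ (E l) y| ≤ ν := by
    intro y hy
    have h1 := congrArg Fin.val (congrFun hkl ⟨y, hy⟩)
    simp only at h1
    have a1 := (WW_range (A := E k) hρc hρs hρ0 hρ1 y).1
    have a2 := (WW_range (A := E l) hρc hρs hρ0 hρ1 y).1
    have b1 := Nat.floor_le (div_nonneg a1 hν0.le)
    have b2 := Nat.floor_le (div_nonneg a2 hν0.le)
    have c1 := Nat.lt_floor_add_one (WW ρ (E k) y / ν)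
    have c2 := Nat.lt_floor_add_one (WW ρ (E l) y / ν)
    rw [h1] at b1 c1
    have d1 : |WW ρ (E k) y / ν - WW ρ (E l) y / ν| ≤ 1 := by
      rw [abs_le]; constructor <;> linarith
    rw [← sub_div, abs_div, abs_of_pos hν0, div_le_one hν0] at d1
    exact d1
  have hVk : ∀ k, volume.real (E k) ≤ V := fun k => measureReal_mono (hEΩ k) hΩf
  have hKV : volume.real K ≤ V := measureReal_mono hKΩ hΩf
  have hτ : ∀ y ∈ K, |WW ρ (E k) y - WW ρ (E l) y| ≤ 2 * (κ * V) + ν := by
    intro y hy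
    obtain ⟨z, hz, hyz⟩ := mem_iUnion₂.mp (htc hy)
    rw [mem_ball] at hyz
    have h1 := WW_equi (hEf k) hρc hρs (fun x y h => hη h) hyz
    have h2 := WW_equi (hEf l) hρc hρs (fun x y h => hη h) hyz
    have h3 := hcol z hz
    have h4 : κ * volume.real (E k) ≤ κ * V := by gcongr; exact hVk k
    have h5 : κ * volume.real (E l) ≤ κ * V := by gcongr; exact hVk l
    rw [abs_le] at *
    constructor <;> linarith [h1.1, h1.2, h2.1, h2.2, h3.1, h3.2]
  have hmain := two_sets (hP k) (hP l) (hE k) (hE l) (hEf k) (hEf l) hK hr (min_le_left _ _)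
    hρc hρs hρ0 hρ1 hρd hτ (by positivity)
  have hbd : (2 * (κ * V) + ν) * volume.real K ≤ ε / 4 := by
    calc (2 * (κ * V) + ν) * volume.real K ≤ (2 * (κ * (V + 1)) + ν) * (V + 1) := by
          gcongr <;> linarith
      _ = ε / 4 := by
          rw [hκ, hν]
          field_simp
          ring
  have hsub : symmDiff (E k) (E l) ⊆ (K ∩ symmDiff (E k) (E l)) ∪ (Ω \ K) := by
    intro x hx
    by_cases hxK : x ∈ K
    · exact Or.inl ⟨hxK, hx⟩
    · right
      refine ⟨?_, hxK⟩
      rcases hx with h | h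
      · exact hEΩ k h.1
      · exact hEΩ l h.1
  have hKd : volume.real (Ω \ K) < ε / 4 := by
    have := ENNReal.toReal_strict_mono ENNReal.ofReal_ne_top hKv
    rwa [ENNReal.toReal_ofReal (by positivity)] at this
  calc volume.real (symmDiff (E k) (E l))
      ≤ volume.real ((K ∩ symmDiff (E k) (E l)) ∪ (Ω \ K)) := by
        exact measureReal_mono hsub (measure_ne_top_of_subset
          (union_subset (inter_subset_left.trans hKΩ) sdiff_subset) hΩf)
    _ ≤ volume.real (K ∩ symmDiff (E k) (E l)) + volume.real (Ω \ K) := measureReal_union_le _ _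
    _ < ε := by linarith

theorem compact_seq {Ω : Set (EuclideanSpace ℝ (Fin n))} (hΩ : IsOpen Ω) (hΩf : volume Ω ≠ ⊤)
    {E : ℕ → Set (EuclideanSpace ℝ (Fin n))} {C : ℝ} (hE : ∀ k, MeasurableSet (E k))
    (hEΩ : ∀ k, E k ⊆ Ω) (hP : ∀ k, PB Ω (E k) C) :
    ∃ (E0 : Set (EuclideanSpace ℝ (Fin n))) (ψ : ℕ → ℕ), MeasurableSet E0 ∧ E0 ⊆ Ω ∧
      StrictMono ψ ∧ Tendsto (fun k => volume (symmDiff (E (ψ k)) E0)) atTop (𝓝 0) := by
  classical
  have hEf : ∀ k, volume (E k) ≠ ⊤ := fun k => measure_ne_top_of_subset (hEΩ k) hΩf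
  set u : ℕ → Lp ℝ 1 (volume : Measure (EuclideanSpace ℝ (Fin n))) := fun k =>
    indicatorConstLp 1 (hE k) (hEf k) (1:ℝ) with hu
  have hdist : ∀ k l, dist (u k) (u l) = volume.real (symmDiff (E k) (E l)) := by
    intro k l
    simp only [hu]
    rw [dist_indicatorConstLp_eq_norm, norm_indicatorConstLp one_ne_zero ENNReal.one_ne_top]
    simp
  have htb : TotallyBounded (range u) := by
    apply totallyBounded_of_finite_discretization
    intro ε hε
    obtain ⟨β, hβ, F, hF⟩ := discr hΩ hΩf hE hEΩ hP hε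
    refine ⟨β, hβ, fun x => F (Classical.choose x.2), ?_⟩
    intro x y hxy
    have hx := Classical.choose_spec x.2
    have hy := Classical.choose_spec y.2
    rw [← hx, ← hy, hdist]
    exact hF _ _ hxy
  have hcomp : IsCompact (closure (range u)) := htb.closure.isCompact_of_isClosed isClosed_closure
  obtain ⟨v, _, ψ, hψ, hlim⟩ := hcomp.tendsto_subseq (x := u) (fun k => subset_closure (mem_range_self k))
  have hm := tendstoInMeasure_of_tendsto_Lp hlim
  have hmeas := hm (1/2) (by norm_num)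
  refine ⟨{x | x ∈ Ω ∧ 1/2 < v x}, ψ, ?_, fun x hx => hx.1, hψ, ?_⟩
  · exact hΩ.measurableSet.inter (measurableSet_lt measurable_const (Lp.stronglyMeasurable v).measurable)
  · apply tendsto_of_tendsto_of_tendsto_of_le_of_le tendsto_const_nhds hmeas (fun _ => zero_le)
    intro k
    apply measure_mono_ae
    have hcoe : ⇑(u (ψ k)) =ᵐ[volume] (E (ψ k)).indicator fun _ => (1:ℝ) := indicatorConstLp_coeFn
    filter_upwards [hcoe] with x hx hxs
    change (1/2 : ℝ≥0∞) ≤ edist ((u (ψ k)) x) (v x)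
    have hd : (1/2 : ℝ) ≤ dist ((u (ψ k)) x) (v x) := by
      rw [hx, Real.dist_eq]
      rcases hxs with ⟨h1, h2⟩ | ⟨h1, h2⟩
      · rw [indicator_of_mem h1]
        have h3 : v x ≤ 1/2 := by
          by_contra h4
          exact h2 ⟨hEΩ _ h1, not_le.mp h4⟩
        rw [abs_of_nonneg (by linarith)]
        linarith
      · rw [indicator_of_notMem h2, zero_sub, abs_neg]
        exact h1.2.le.trans (le_abs_self _)
    rw [edist_dist]
    calc (1/2 : ℝ≥0∞) = ENNReal.ofReal (1/2) := by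
          rw [ENNReal.ofReal_div_of_pos (by norm_num)]; simp
      _ ≤ _ := ENNReal.ofReal_le_ofReal hd

theorem t_cpt : S_cpt := by
  intro b Ω hΩ hb E C hE hEΩ hP
  have hsc : ∀ p : PP b, sc 1 p = p := by
    intro p
    ext i
    simp [sc]
  apply compact_seq hΩ hb.measure_lt_top.ne hE hEΩ (C := C)
  intro k φ h1 h2 h3 h4
  exact hP k φ ⟨h1, h2, h3, fun x => by rw [hsc]; exact h4 x⟩

end Pool.Agent.TH452.MI
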